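import Pool.Agent.MVS.Stmts
import Pool.Agent.Helper36_RF.Chr

/-! MCO: metric compatibility along curves. -/

set_option autoImplicit false

noncomputable section

open scoped ContDiff Topology RealInnerProductSpace
open Set

namespace Pool.Agent.MVS.H60

open Pool.Agent.RF

theorem mco : McoStatement := by
  intro ι _ _ G U hG c V W c' V' W' t hU hc hV hW
  have h1 : HasDerivAt (fun s => G (c s)) (fderiv ℝ G (c t) c') t :=
    HasFDerivAt.comp_hasDerivAt (l := G) (f := c) (l' := fderiv ℝ G (c t)) t
      (hG.diffAt hU).hasFDerivAt hc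
  have h2 := (h1.clm_apply hV).clm_apply hW
  refine h2.congr_deriv ?_
  have h3 := hG.chris_spec hU c' (V t) (W t)
  have h4 := hG.chris_spec hU c' (W t) (V t)
  rw [hG.symm _ hU] at h4
  have h5 := hG.fderiv_symm hU c' (V t) (W t)
  simp only [_root_.add_apply, map_add]
  rw [h3, h4, ← h5]
  ring

end Pool.Agent.MVS.H60
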