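import Pool.Agent.MVS.Stmts

/-! PAR: graph parametrizations of the four-sphere. -/

set_option autoImplicit false

noncomputable section

open scoped ContDiff Topology RealInnerProductSpace
open Set

namespace Pool.Agent.MVS.H60

open Pool.Agent.RF Pool.Agent.SecondKind Pool.Agent.MinVolSphere

namespace Par

variable (k : Fin 5) (e : ℝ)

/-- the unit ball -/
def U : Set (Fin 4 → ℝ) := {y | ∑ i, y i ^ 2 < 1}

/-- the graph parametrization -/
def ψ (y : Fin 4 → ℝ) : Fin 5 → ℝ := k.insertNth (α := fun _ => ℝ) (e * Real.sqrt (1 - ∑ i, y i ^ 2)) y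

/-- the inverse -/
def η (x : Fin 5 → ℝ) : Fin 4 → ℝ := fun i => (Real.sqrt (∑ j, x j ^ 2))⁻¹ * x (k.succAbove i)

/-- the half space -/
def O : Set (Fin 5 → ℝ) := {x | 0 < e * x k}

/-- forget the coordinate `k` -/
def P : (Fin 5 → ℝ) →L[ℝ] (Fin 4 → ℝ) :=
  ContinuousLinearMap.pi fun i => ContinuousLinearMap.proj (k.succAbove i)

theorem P_apply (x : Fin 5 → ℝ) (i : Fin 4) : P k x i = x (k.succAbove i) := rfl

theorem ψ_same (y : Fin 4 → ℝ) : ψ k e y k = e * Real.sqrt (1 - ∑ i, y i ^ 2) := by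
  unfold ψ
  rw [Fin.insertNth_apply_same]

theorem ψ_succ (y : Fin 4 → ℝ) (i : Fin 4) : ψ k e y (k.succAbove i) = y i := by
  unfold ψ
  rw [Fin.insertNth_apply_succAbove]

theorem isOpen_U : IsOpen U := by
  apply isOpen_lt _ continuous_const
  fun_prop

theorem smooth_ψ : ContDiffOn ℝ ∞ (ψ k e) U := by
  rw [contDiffOn_pi]
  intro j
  rcases Fin.eq_self_or_eq_succAbove k j with h | ⟨i, h⟩
  · rw [h]
    have h1 : (fun y : Fin 4 → ℝ => ψ k e y k) = fun y => e * Real.sqrt (1 - ∑ i, y i ^ 2) := by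
      funext y
      exact ψ_same k e y
    rw [h1]
    apply contDiffOn_const.mul
    apply ContDiffOn.sqrt
    · apply contDiffOn_const.sub
      apply ContDiffOn.sum
      intro i _
      exact ((contDiff_apply ℝ ℝ i).pow 2).contDiffOn
    · intro y hy
      have : ∑ i, y i ^ 2 < 1 := hy
      linarith
  · rw [h]
    have h1 : (fun y : Fin 4 → ℝ => ψ k e y (k.succAbove i)) = fun y => y i := by
      funext y
      exact ψ_succ k e y i
    rw [h1]
    exact (contDiff_apply ℝ ℝ i).contDiffOn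

theorem diff_ψ {y : Fin 4 → ℝ} (hy : y ∈ U) : DifferentiableAt ℝ (ψ k e) y :=
  ((smooth_ψ k e y hy).contDiffAt (isOpen_U.mem_nhds hy)).differentiableAt (by simp)

theorem sphere_ψ (he : e ^ 2 = 1) {y : Fin 4 → ℝ} (hy : y ∈ U) : ∑ i, ψ k e y i ^ 2 = 1 := by
  have h0 : ∑ i, y i ^ 2 < 1 := hy
  rw [Fin.sum_univ_succAbove _ k, ψ_same, mul_pow, he, Real.sq_sqrt (by linarith)]
  simp only [ψ_succ]
  ring

theorem fderiv_succ {y : Fin 4 → ℝ} (hy : y ∈ U) (u : Fin 4 → ℝ) (i : Fin 4) :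
    fderiv ℝ (ψ k e) y u (k.succAbove i) = u i := by
  have h1 : HasFDerivAt (fun z => P k (ψ k e z)) ((P k).comp (fderiv ℝ (ψ k e) y)) y :=
    (P k).hasFDerivAt.comp y (diff_ψ k e hy).hasFDerivAt
  have h2 : (fun z : Fin 4 → ℝ => P k (ψ k e z)) = fun z => z := by
    funext z j
    rw [P_apply, ψ_succ]
  rw [h2] at h1
  have h3 := h1.unique (hasFDerivAt_id y)
  have h4 := congrFun (congrArg (fun L : (Fin 4 → ℝ) →L[ℝ] (Fin 4 → ℝ) => L u) h3) i
  exact h4

theorem fderiv_tan (he : e ^ 2 = 1) {y : Fin 4 → ℝ} (hy : y ∈ U) (u : Fin 4 → ℝ) :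
    ∑ i, ψ k e y i * fderiv ℝ (ψ k e) y u i = 0 := by
  have hD := (diff_ψ k e hy).hasFDerivAt
  have h1 : ∀ i : Fin 5, HasFDerivAt (fun z => ψ k e z i)
      ((ContinuousLinearMap.proj i : (Fin 5 → ℝ) →L[ℝ] ℝ).comp (fderiv ℝ (ψ k e) y)) y := by
    intro i
    exact (ContinuousLinearMap.proj i : (Fin 5 → ℝ) →L[ℝ] ℝ).hasFDerivAt.comp y hD
  have h2 := HasFDerivAt.fun_sum (u := Finset.univ) fun i (_ : i ∈ Finset.univ) => (h1 i).mul (h1 i)
  have h3 : HasFDerivAt (fun z : Fin 4 → ℝ => ∑ i, ψ k e z i * ψ k e z i)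
      (0 : (Fin 4 → ℝ) →L[ℝ] ℝ) y := by
    apply (hasFDerivAt_const (1 : ℝ) y).congr_of_eventuallyEq
    filter_upwards [isOpen_U.mem_nhds hy] with z hz
    rw [← sphere_ψ k e he hz]
    exact Finset.sum_congr rfl fun i _ => by ring
  have h4 := congrArg (fun L : (Fin 4 → ℝ) →L[ℝ] ℝ => L u) (h2.unique h3)
  simp only [_root_.sum_apply, _root_.add_apply, _root_.smul_apply,
    ContinuousLinearMap.comp_apply, ContinuousLinearMap.proj_apply, smul_eq_mul,
    _root_.zero_apply] at h4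
  have h5 : ∑ i, (ψ k e y i * fderiv ℝ (ψ k e) y u i + ψ k e y i * fderiv ℝ (ψ k e) y u i) =
      2 * ∑ i, ψ k e y i * fderiv ℝ (ψ k e) y u i := by
    rw [Finset.mul_sum]
    exact Finset.sum_congr rfl fun i _ => by ring
  rw [h5] at h4
  linarith

theorem ψ_ne {y : Fin 4 → ℝ} (he : e ^ 2 = 1) (hy : y ∈ U) : ψ k e y k ≠ 0 := by
  have h0 : ∑ i, y i ^ 2 < 1 := hy
  rw [ψ_same]
  apply mul_ne_zero
  · intro h
    rw [h] at he
    norm_num at he
  · exact (Real.sqrt_pos.2 (by linarith)).ne'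

theorem surj (he : e ^ 2 = 1) {y : Fin 4 → ℝ} (hy : y ∈ U) (v : Fin 5 → ℝ)
    (hv : ∑ i, ψ k e y i * v i = 0) : fderiv ℝ (ψ k e) y (P k v) = v := by
  funext j
  have hs : ∀ i, fderiv ℝ (ψ k e) y (P k v) (k.succAbove i) = v (k.succAbove i) := fun i => by
    rw [fderiv_succ k e hy, P_apply]
  rcases Fin.eq_self_or_eq_succAbove k j with h | ⟨i, h⟩
  · rw [h]
    have h1 := fderiv_tan k e he hy (P k v)
    rw [Fin.sum_univ_succAbove _ k] at h1 hv
    simp only [hs] at h1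
    have h2 : ψ k e y k * fderiv ℝ (ψ k e) y (P k v) k = ψ k e y k * v k := by linarith
    exact mul_left_cancel₀ (ψ_ne k e he hy) h2
  · rw [h]
    exact hs i

theorem isParam (he : e ^ 2 = 1) : IsParam U (ψ k e) where
  isOpen := isOpen_U
  smooth := smooth_ψ k e
  sphere := fun y hy => sphere_ψ k e he hy
  immersion := by
    intro y hy u v huv
    funext i
    rw [← fderiv_succ k e hy u i, ← fderiv_succ k e hy v i, huv]

theorem norm_pos' {x : Fin 5 → ℝ} (hx : x ∈ O k e) : 0 < ∑ j, x j ^ 2 := by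
  have h1 : 0 < e * x k := hx
  have h2 : x k ≠ 0 := by
    intro h
    rw [h, mul_zero] at h1
    exact lt_irrefl _ h1
  exact Finset.sum_pos' (fun j _ => sq_nonneg _) ⟨k, Finset.mem_univ k, by positivity⟩

theorem smooth_η : ContDiffOn ℝ ∞ (η k) (O k e) := by
  rw [contDiffOn_pi]
  intro i
  unfold η
  apply ContDiffOn.mul
  · apply ContDiffOn.inv
    · apply ContDiffOn.sqrt
      · apply ContDiffOn.sum
        intro j _
        exact ((contDiff_apply ℝ ℝ j).pow 2).contDiffOn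
      · intro x hx
        exact (norm_pos' k e hx).ne'
    · intro x hx
      exact (Real.sqrt_pos.2 (norm_pos' k e hx)).ne'
  · exact (contDiff_apply ℝ ℝ _).contDiffOn

theorem isOpen_O : IsOpen (O k e) := by
  apply isOpen_lt continuous_const
  fun_prop

theorem sum_η {x : Fin 5 → ℝ} (hx : x ∈ O k e) :
    1 - ∑ i, η k x i ^ 2 = ((Real.sqrt (∑ j, x j ^ 2))⁻¹ * x k) ^ 2 := by
  have h0 := norm_pos' k e hx
  have h1 : ∑ j, x j ^ 2 = x k ^ 2 + ∑ i, x (k.succAbove i) ^ 2 := Fin.sum_univ_succAbove _ k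
  have h2 : ∑ i, η k x i ^ 2 = (∑ j, x j ^ 2)⁻¹ * ∑ i, x (k.succAbove i) ^ 2 := by
    rw [Finset.mul_sum]
    refine Finset.sum_congr rfl fun i _ => ?_
    unfold η
    rw [mul_pow, inv_pow, Real.sq_sqrt h0.le]
  rw [h2, mul_pow, inv_pow, Real.sq_sqrt h0.le]
  have h3 : ∑ i, x (k.succAbove i) ^ 2 = ∑ j, x j ^ 2 - x k ^ 2 := by linarith
  rw [h3]
  field_simp
  ring

theorem η_mem (he : e ^ 2 = 1) {x : Fin 5 → ℝ} (hx : x ∈ O k e) :
    η k x ∈ U ∧ ψ k e (η k x) = (Real.sqrt (∑ i, x i ^ 2))⁻¹ • x := by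
  have h0 := norm_pos' k e hx
  have h1 : 0 < e * x k := hx
  have hρ : 0 < (Real.sqrt (∑ j, x j ^ 2))⁻¹ := inv_pos.2 (Real.sqrt_pos.2 h0)
  have hs := sum_η k e hx
  have hxk : x k ≠ 0 := by
    intro h
    rw [h, mul_zero] at h1
    exact lt_irrefl _ h1
  constructor
  · change ∑ i, η k x i ^ 2 < 1
    have h2 : 0 < ((Real.sqrt (∑ j, x j ^ 2))⁻¹ * x k) ^ 2 := by positivity
    linarith
  · funext j
    rcases Fin.eq_self_or_eq_succAbove k j with h | ⟨i, h⟩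
    · rw [h, ψ_same, hs, Pi.smul_apply, smul_eq_mul]
      have h2 : (Real.sqrt (∑ j, x j ^ 2))⁻¹ * x k =
          e * (e * ((Real.sqrt (∑ j, x j ^ 2))⁻¹ * x k)) := by
        rw [← mul_assoc, ← pow_two, he, one_mul]
      have h3 : ((Real.sqrt (∑ j, x j ^ 2))⁻¹ * x k) ^ 2 =
          (e * ((Real.sqrt (∑ j, x j ^ 2))⁻¹ * x k)) ^ 2 := by
        rw [mul_pow e, he, one_mul]
      rw [h3, Real.sqrt_sq, ← h2]
      have h4 : e * ((Real.sqrt (∑ j, x j ^ 2))⁻¹ * x k) =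
          (Real.sqrt (∑ j, x j ^ 2))⁻¹ * (e * x k) := by ring
      rw [h4]
      exact (mul_pos hρ h1).le
    · rw [h, ψ_succ]
      rfl

end Par

theorem par : ParStatement := by
  intro x₀ hx₀
  have hsum : ∑ i, x₀ i ^ 2 = 1 := hx₀
  have hex : ∃ k, x₀ k ≠ 0 := by
    by_contra hcon
    push Not at hcon
    have : ∑ i, x₀ i ^ 2 = 0 := Finset.sum_eq_zero fun i _ => by rw [hcon i]; ring
    rw [this] at hsum
    norm_num at hsum
  obtain ⟨k, hk⟩ := hex
  obtain ⟨e, he, hek⟩ : ∃ e : ℝ, e ^ 2 = 1 ∧ 0 < e * x₀ k := by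
    rcases lt_or_gt_of_ne hk with h | h
    · exact ⟨-1, by norm_num, by linarith⟩
    · exact ⟨1, by norm_num, by linarith⟩
  have hO : x₀ ∈ Par.O k e := hek
  obtain ⟨h1, h2⟩ := Par.η_mem k e he hO
  refine ⟨Par.U, Par.ψ k e, Par.η k x₀, Par.O k e, Par.η k, Par.isParam k e he, h1, ?_,
    Par.isOpen_O k e, hO, Par.smooth_η k e, fun x hx => Par.η_mem k e he hx,
    fun y hy v hv => ⟨Par.P k v, Par.surj k e he hy v hv⟩⟩
  rw [h2, hsum, Real.sqrt_one, inv_one, one_smul]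

end Pool.Agent.MVS.H60
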