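import Pool.Agent.MVS.Stmts
import Pool.Agent.Helper36_RF.Chr

/-! UNQ: uniqueness of geodesics. -/

set_option autoImplicit false

noncomputable section

open scoped ContDiff Topology RealInnerProductSpace
open Set

namespace Pool.Agent.MVS.H60

open Pool.Agent.RF

/-- the geodesic field -/
def gf (G : E5 → Bil E5) (p : E5 × E5) : E5 × E5 := (p.2, - chris G p.1 p.2 p.2)

theorem gf_lip {G : E5 → Bil E5} (hG : IsMetricOn G (Om (Fin 5))) {p : E5 × E5}
    (hp : p.1 ∈ Om (Fin 5)) : ∃ K, ∃ N ∈ 𝓝 p, LipschitzOnWith K (gf G) N := by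
  have h1 : ContDiffAt ℝ ∞ (fun q : E5 × E5 × E5 => chris G q.1 q.2.1 q.2.2) (p.1, p.2, p.2) :=
    (hG.contDiffOn_chris (p.1, p.2, p.2) ⟨hp, trivial⟩).contDiffAt
      ((hG.isOpen.prod isOpen_univ).mem_nhds ⟨hp, trivial⟩)
  have h2 : ContDiffAt ℝ ∞ (fun q : E5 × E5 => chris G q.1 q.2 q.2) p :=
    ContDiffAt.comp (g := fun q : E5 × E5 × E5 => chris G q.1 q.2.1 q.2.2)
      (f := fun q : E5 × E5 => (q.1, q.2, q.2)) p h1
      (contDiffAt_fst.prodMk (contDiffAt_snd.prodMk contDiffAt_snd))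
  have h3 : ContDiffAt ℝ ∞ (gf G) p := contDiffAt_snd.prodMk h2.neg
  exact (h3.of_le (by exact_mod_cast le_top)).exists_lipschitzOnWith

theorem unq : UnqStatement := by
  intro G hcyl L hL c₁ c₂ d₁ d₂ hmem h1 h2 hc0 hd0
  have hG := hcyl.metric
  set f : ℝ → E5 × E5 := fun t => (c₁ t, d₁ t) with hf
  set g : ℝ → E5 × E5 := fun t => (c₂ t, d₂ t) with hg
  have hfd : ∀ t ∈ Icc 0 L, HasDerivWithinAt f (gf G (f t)) (Icc 0 L) t := fun t ht =>
    (h1 t ht).1.prodMk (h1 t ht).2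
  have hgd : ∀ t ∈ Icc 0 L, HasDerivWithinAt g (gf G (g t)) (Icc 0 L) t := fun t ht =>
    (h2 t ht).1.prodMk (h2 t ht).2
  have hfc : ContinuousOn f (Icc 0 L) := fun t ht => (hfd t ht).continuousWithinAt
  have hgc : ContinuousOn g (Icc 0 L) := fun t ht => (hgd t ht).continuousWithinAt
  have hfR : ∀ t ∈ Ico 0 L, HasDerivWithinAt f (gf G (f t)) (Ici t) t := fun t ht =>
    (hfd t ⟨ht.1, ht.2.le⟩).mono_of_mem_nhdsWithin (Icc_mem_nhdsGE_of_mem ht)
  have hgR : ∀ t ∈ Ico 0 L, HasDerivWithinAt g (gf G (g t)) (Ici t) t := fun t ht =>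
    (hgd t ⟨ht.1, ht.2.le⟩).mono_of_mem_nhdsWithin (Icc_mem_nhdsGE_of_mem ht)
  set s : Set ℝ := {t | f t = g t} with hs
  have hclosed : IsClosed (s ∩ Icc 0 L) := by
    have h3 : s ∩ Icc 0 L = Icc 0 L ∩ (fun t => (f t, g t)) ⁻¹' (Set.diagonal (E5 × E5)) := by
      ext t
      simp only [hs, Set.mem_inter_iff, Set.mem_ofPred_eq, Set.mem_preimage, Set.mem_diagonal_iff]
      exact and_comm
    rw [h3]
    exact (hfc.prodMk hgc).preimage_isClosed_of_isClosed isClosed_Icc isClosed_diagonal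
  have h0 : (0 : ℝ) ∈ s := by
    rw [hs, Set.mem_ofPred_eq, hf, hg]
    simp only
    rw [hc0, hd0]
  have hstep : ∀ x ∈ s ∩ Ico 0 L, s ∈ 𝓝[>] x := by
    rintro x ⟨hxs, hx⟩
    have hxI : x ∈ Icc 0 L := ⟨hx.1, hx.2.le⟩
    have hxs' : f x = g x := hxs
    obtain ⟨K, N, hN, hK⟩ := gf_lip hG (p := f x) (hmem x hxI).1
    have hfx : ContinuousWithinAt f (Ici x) x := (hfR x hx).continuousWithinAt
    have hgx : ContinuousWithinAt g (Ici x) x := (hgR x hx).continuousWithinAt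
    have e1 : ∀ᶠ t in 𝓝[≥] x, f t ∈ N := hfx hN
    have e2 : ∀ᶠ t in 𝓝[≥] x, g t ∈ N := hgx (by rw [← hxs']; exact hN)
    have e3 : ∀ᶠ t in 𝓝[≥] x, t ∈ Ico 0 L := by
      have h4 : Iio L ∈ 𝓝 x := Iio_mem_nhds hx.2
      filter_upwards [mem_nhdsWithin_of_mem_nhds h4, self_mem_nhdsWithin] with t ht ht'
      exact ⟨hx.1.trans ht', ht⟩
    have e4 := e1.and (e2.and e3)
    obtain ⟨b, hb, hsub⟩ := (mem_nhdsGE_iff_exists_Ico_subset.1 e4)
    have hb' : x < b := hb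
    -- take the middle
    set m : ℝ := (x + b) / 2 with hm
    have hxm : x < m := by rw [hm]; linarith
    have hmb : m < b := by rw [hm]; linarith
    have hin : ∀ t ∈ Icc x m, f t ∈ N ∧ g t ∈ N ∧ t ∈ Ico 0 L := fun t ht =>
      hsub ⟨ht.1, ht.2.trans_lt hmb⟩
    have hEq : EqOn f g (Icc x m) := by
      refine ODE_solution_unique_of_mem_Icc_right (v := fun _ => gf G) (s := fun _ => N) (K := K)
        (fun t _ => hK) ?_ ?_ ?_ ?_ ?_ ?_ hxs'
      · intro t ht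
        have h5 := hin t ht
        exact (hfc t ⟨h5.2.2.1, h5.2.2.2.le⟩).mono fun r hr => by
          have h6 := hin r hr
          exact ⟨h6.2.2.1, h6.2.2.2.le⟩
      · intro t ht
        exact hfR t (hin t ⟨ht.1, ht.2.le⟩).2.2
      · intro t ht
        exact (hin t ⟨ht.1, ht.2.le⟩).1
      · intro t ht
        have h5 := hin t ht
        exact (hgc t ⟨h5.2.2.1, h5.2.2.2.le⟩).mono fun r hr => by
          have h6 := hin r hr
          exact ⟨h6.2.2.1, h6.2.2.2.le⟩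
      · intro t ht
        exact hgR t (hin t ⟨ht.1, ht.2.le⟩).2.2
      · intro t ht
        exact (hin t ⟨ht.1, ht.2.le⟩).2.1
    refine Filter.mem_of_superset (Ioc_mem_nhdsGT hxm) fun t ht => ?_
    exact hEq ⟨ht.1.le, ht.2⟩
  have hall := hclosed.Icc_subset_of_forall_mem_nhdsWithin h0 hstep
  intro t ht
  have h3 : f t = g t := hall ht
  exact Prod.mk.inj h3

end Pool.Agent.MVS.H60
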